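import Pool.Agent.Q162.Jack.Match

/-!
# The number of admissible triples
-/

namespace Q162Jack

open Equiv

variable {n m : ℕ}

/-- Permutations (positions to values) increasing on the classes of `u`, whose inverse is
increasing on the classes of `s`. -/
def WW (s : Fin n → ℕ) (u : Fin n → Fin m) : Type :=
  {w : Perm (Fin n) // IncOn u w ∧ IncOn s w.symm}

/-- Rearrangements of `u` that are increasing on the classes of `s`. -/
def GG (s : Fin n → ℕ) (u : Fin n → Fin m) : Type :=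
  {g : Fin n → Fin m // IncOn s g ∧ ∃ ρ : Perm (Fin n), ∀ x, u (ρ x) = g x}

/-- The relation between the two. -/
def RR (s : Fin n → ℕ) (u : Fin n → Fin m) (w : Perm (Fin n)) (g : Fin n → Fin m) : Prop :=
  ∃ τ : Perm (Fin n), (∀ x, s (τ x) = s x) ∧ ∀ x, g x = u (w.symm (τ x))

theorem stab_symm {K : Type*} (f : Fin n → K) (τ : Perm (Fin n)) (h : ∀ x, f (τ x) = f x) :
    ∀ x, f (τ.symm x) = f x := by
  intro x
  have := h (τ.symm x)
  rw [Equiv.apply_symm_apply] at this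
  exact this.symm

theorem exists_g (s : Fin n → ℕ) (u : Fin n → Fin m) (w : WW s u) :
    ∃ g : GG s u, RR s u w.1 g.1 := by
  obtain ⟨τ, h1, h2⟩ := exists_incOn s (fun x => (u (w.1.symm x) : ℕ))
  refine ⟨⟨fun x => u (w.1.symm (τ x)), ?_, ⟨w.1.symm * τ, fun x => rfl⟩⟩, ⟨τ, h1, fun x => rfl⟩⟩
  intro p q hpq hs
  exact h2 p q hpq hs

theorem unique_g (s : Fin n → ℕ) (u : Fin n → Fin m) (w : WW s u) (g g' : GG s u)
    (h : RR s u w.1 g.1) (h' : RR s u w.1 g'.1) : g = g' := by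
  obtain ⟨τ, t1, t2⟩ := h
  obtain ⟨τ', t1', t2'⟩ := h'
  have e : ∀ x, g'.1 x = g.1 ((τ.symm * τ' : Perm (Fin n)) x) := by
    intro x
    rw [t2', t2]
    simp
  apply Subtype.ext
  funext x
  rw [e]
  symm
  apply incOn_unique s g.1 (τ.symm * τ' : Perm (Fin n)) _ g.2.1
  · intro p q hpq hs
    simp only [← e]
    exact g'.2.1 p q hpq hs
  · intro p
    rw [Equiv.Perm.mul_apply, stab_symm s τ t1, t1']

theorem incOn_comp (s : Fin n → ℕ) (hs : Monotone s) (u : Fin n → Fin m) (w : WW s u) :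
    IncOn u (fun p => s (w.1 p)) := fun p q hpq hu => hs (w.2.1 p q hpq hu)

theorem eq_of_comp (s : Fin n → ℕ) (u : Fin n → Fin m) (w w' : WW s u)
    (h : ∀ p, s (w.1 p) = s (w'.1 p)) : w = w' := by
  apply Subtype.ext
  have key : ∀ x, w'.1.symm x = w.1.symm x := by
    intro x
    have e : ∀ x, w'.1.symm x = w.1.symm ((w.1 * w'.1.symm : Perm (Fin n)) x) := by
      intro x
      simp
    rw [e]
    apply incOn_unique s w.1.symm (w.1 * w'.1.symm : Perm (Fin n)) _ w.2.2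
    · intro p q hpq hs
      simp only [← e]
      exact w'.2.2 p q hpq hs
    · intro p
      rw [Equiv.Perm.mul_apply, h, Equiv.apply_symm_apply]
  have : w.1.symm = w'.1.symm := Equiv.ext fun x => (key x).symm
  have h2 := congrArg Equiv.symm this
  simpa using h2

theorem exists_w (s : Fin n → ℕ) (hs : Monotone s) (u : Fin n → Fin m) (g : GG s u) :
    ∃ w : WW s u, RR s u w.1 g.1 := by
  obtain ⟨ρ, hρ⟩ := g.2.2
  obtain ⟨κ, k1, k2⟩ := exists_incOn u (fun p => s (ρ.symm p))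
  obtain ⟨τ, t1, t2⟩ := exists_incOn s (fun x => ((κ.symm (ρ x) : Fin n) : ℕ))
  let w : Perm (Fin n) := (κ.symm * ρ * τ)⁻¹
  have hw : ∀ x, w.symm x = κ.symm (ρ (τ x)) := fun x => rfl
  have hv : ∀ p, s (w p) = s (ρ.symm (κ p)) := by
    intro p
    have h1 : w.symm (w p) = κ.symm (ρ (τ (w p))) := hw _
    rw [Equiv.symm_apply_apply] at h1
    have h2 : ρ.symm (κ p) = τ (w p) := by
      rw [Equiv.symm_apply_eq]
      exact (Equiv.eq_symm_apply κ).mp h1
    rw [h2, t1]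
  refine ⟨⟨w, ?_, ?_⟩, τ.symm, stab_symm s τ t1, ?_⟩
  · intro p q hpq hu
    by_contra hlt
    push Not at hlt
    have h1 : s (w q) ≤ s (w p) := hs hlt.le
    have h2 : s (ρ.symm (κ p)) ≤ s (ρ.symm (κ q)) := k2 p q hpq hu
    rw [← hv, ← hv] at h2
    have h3 := t2 (w q) (w p) hlt (le_antisymm h1 h2)
    have h4 : w.symm (w q) ≤ w.symm (w p) := h3
    rw [Equiv.symm_apply_apply, Equiv.symm_apply_apply] at h4
    exact absurd hpq (not_lt.mpr h4)
  · intro x y hxy hsxy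
    exact t2 x y hxy hsxy
  · intro x
    simp only [hw, Equiv.apply_symm_apply]
    rw [stab_symm u κ k1, hρ]

theorem unique_w (s : Fin n → ℕ) (hs : Monotone s) (u : Fin n → Fin m) (w w' : WW s u)
    (g : GG s u) (h : RR s u w.1 g.1) (h' : RR s u w'.1 g.1) : w = w' := by
  obtain ⟨τ, t1, t2⟩ := h
  obtain ⟨τ', t1', t2'⟩ := h'
  apply eq_of_comp s u w w'
  intro p
  let κ : Perm (Fin n) := w.1.symm * τ * τ'.symm * w'.1
  have hκ : ∀ p, κ p = w.1.symm (τ (τ'.symm (w'.1 p))) := fun p => rfl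
  have hκu : ∀ p, u (κ p) = u p := by
    intro p
    rw [hκ, ← t2, t2']
    simp
  have hκv : ∀ p, s (w.1 (κ p)) = s (w'.1 p) := by
    intro p
    rw [hκ, Equiv.apply_symm_apply, t1, stab_symm s τ' t1']
  rw [← hκv]
  symm
  apply incOn_unique u (fun p => s (w.1 p)) κ hκu (incOn_comp s hs u w)
  intro p q hpq hu
  simp only [hκv]
  exact incOn_comp s hs u w' p q hpq hu

theorem card_WW_eq (s : Fin n → ℕ) (hs : Monotone s) (u : Fin n → Fin m) :
    Nat.card (WW s u) = Nat.card (GG s u) := by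
  choose F hF using exists_g s u
  apply Nat.card_eq_of_bijective F
  constructor
  · intro w w' h
    have h1 := hF w
    rw [h] at h1
    exact unique_w s hs u w w' _ h1 (hF w')
  · intro g
    obtain ⟨w, hw⟩ := exists_w s hs u g
    exact ⟨w, unique_g s u w _ _ (hF w) hw⟩

instance (s : Fin n → ℕ) (u : Fin n → Fin m) : Finite (WW s u) := by
  unfold WW
  infer_instance

instance (s : Fin n → ℕ) (u : Fin n → Fin m) : Finite (GG s u) := by
  unfold GG
  infer_instance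

/-- Stabilizer of a word. -/
abbrev Stab (u : Fin n → Fin m) : Type := {σ : Perm (Fin n) // ∀ p, u (σ p) = u p}

/-- The triples `(π, c, w)` where `w` is the refill of `π` along the classes of `c`, and the
inverse of `w` is increasing on the classes of `s`. -/
def XX (s : Fin n → ℕ) (m : ℕ) : Type :=
  {x : Perm (Fin n) × (Fin n → Fin m) × Perm (Fin n) //
    (∀ p, x.2.1 (x.2.2 p) = x.2.1 (x.1 p)) ∧ IncOn (fun p => x.2.1 (x.1 p)) x.2.2 ∧
      IncOn s x.2.2.symm}

/-- Words with a stabilizing permutation give triples. -/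
def mkXX (s : Fin n → ℕ) (m : ℕ) (y : Σ u : Fin n → Fin m, (Stab u × WW s u)) : XX s m :=
  ⟨⟨y.2.2.1 * y.2.1.1, fun x => y.1 (y.2.2.1.symm x), y.2.2.1⟩, by
    refine ⟨?_, ?_, y.2.2.2.2⟩
    · intro p
      simp only [Equiv.symm_apply_apply, Equiv.Perm.mul_apply]
      exact (y.2.1.2 p).symm
    · intro p q hpq hu
      simp only [Equiv.symm_apply_apply, Equiv.Perm.mul_apply] at hu
      rw [y.2.1.2 p, y.2.1.2 q] at hu
      exact y.2.2.2.1 p q hpq hu⟩

theorem mkXX_bijective (s : Fin n → ℕ) (m : ℕ) : Function.Bijective (mkXX s m) := by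
  constructor
  · rintro ⟨u, ⟨σ, hσ⟩, ⟨w, hw⟩⟩ ⟨u', ⟨σ', hσ'⟩, ⟨w', hw'⟩⟩ h
    have h0 := congrArg Subtype.val h
    have h1 : w * σ = w' * σ' := congrArg (fun x => x.1) h0
    have h2 : (fun x => u (w.symm x)) = fun x => u' (w'.symm x) := congrArg (fun x => x.2.1) h0
    have h3 : w = w' := congrArg (fun x => x.2.2) h0
    subst h3
    have h4 : σ = σ' := mul_left_cancel h1
    subst h4
    have h5 : u = u' := by
      funext p
      have := congrFun h2 (w p)
      simpa using this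
    subst h5
    rfl
  · rintro ⟨⟨π, c, w⟩, h1, h2, h3⟩
    refine ⟨⟨fun p => c (π p), ⟨⟨w.symm * π, ?_⟩, ⟨w, h2, h3⟩⟩⟩, ?_⟩
    · intro p
      have h := h1 (w.symm (π p))
      simp only [Equiv.apply_symm_apply] at h
      simp only [Equiv.Perm.mul_apply]
      exact h.symm
    · apply Subtype.ext
      apply Prod.ext
      · ext p
        simp [mkXX]
      · apply Prod.ext
        · funext v
          have h := h1 (w.symm v)
          simp only [Equiv.apply_symm_apply] at h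
          exact h.symm
        · rfl

theorem card_XX_eq (s : Fin n → ℕ) (hs : Monotone s) (m : ℕ) :
    Nat.card (XX s m) = ∑ u : Fin n → Fin m, Nat.card (Stab u) * Nat.card (GG s u) := by
  rw [← Nat.card_eq_of_bijective _ (mkXX_bijective s m), Nat.card_sigma]
  refine Finset.sum_congr rfl fun u _ => ?_
  rw [Nat.card_prod, card_WW_eq s hs]

/-- Regrouping by `g`. -/
def regroup (s : Fin n → ℕ) (m : ℕ) (y : Σ u : Fin n → Fin m, (Stab u × GG s u)) :
    Σ g : {g : Fin n → Fin m // IncOn s g},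
      {x : (Fin n → Fin m) × Perm (Fin n) // (∀ p, x.1 (x.2 p) = x.1 p) ∧
        ∃ ρ : Perm (Fin n), ∀ p, x.1 (ρ p) = g.1 p} :=
  ⟨⟨y.2.2.1, y.2.2.2.1⟩, ⟨⟨y.1, y.2.1.1⟩, y.2.1.2, y.2.2.2.2⟩⟩

theorem regroup_bijective (s : Fin n → ℕ) (m : ℕ) : Function.Bijective (regroup s m) := by
  constructor
  · rintro ⟨u, ⟨σ, hσ⟩, ⟨g, hg⟩⟩ ⟨u', ⟨σ', hσ'⟩, ⟨g', hg'⟩⟩ h
    have hg1 : g = g' := congrArg (fun z => z.1.1) h
    subst hg1
    have h2 : (⟨⟨u, σ⟩, hσ, hg.2⟩ : {x : (Fin n → Fin m) × Perm (Fin n) //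
      (∀ p, x.1 (x.2 p) = x.1 p) ∧ ∃ ρ : Perm (Fin n), ∀ p, x.1 (ρ p) = g p}) =
        ⟨⟨u', σ'⟩, hσ', hg'.2⟩ := eq_of_heq (Sigma.mk.inj h).2
    have h3 := congrArg Subtype.val h2
    have h4 : u = u' := congrArg Prod.fst h3
    have h5 : σ = σ' := congrArg Prod.snd h3
    subst h4
    subst h5
    rfl
  · rintro ⟨⟨g, hg⟩, ⟨⟨u, σ⟩, h1, h2⟩⟩
    exact ⟨⟨u, ⟨σ, h1⟩, ⟨g, hg, h2⟩⟩, rfl⟩

/-- Pairs of a word and a stabilizing permutation, the word being a rearrangement of `g`. -/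
abbrev FB (g : Fin n → Fin m) : Type :=
  {x : (Fin n → Fin m) × Perm (Fin n) // (∀ p, x.1 (x.2 p) = x.1 p) ∧
        ∃ ρ : Perm (Fin n), ∀ p, x.1 (ρ p) = g p}

theorem card_fiber (g : Fin n → Fin m) : Nat.card (FB g) = n.factorial := by
  have h : ∀ u : {u : Fin n → Fin m // ∃ ρ : Perm (Fin n), ∀ p, u (ρ p) = g p},
      ∃ ρ : Perm (Fin n), ∀ p, u.1 (ρ p) = g p := fun u => u.2
  choose R hR using h
  let F : FB g → Perm (Fin n) := fun x => x.1.2 * R ⟨x.1.1, x.2.2⟩
  have hF : ∀ x : FB g, ∀ p, x.1.1 (F x p) = g p := by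
    intro x p
    simp only [F, Equiv.Perm.mul_apply]
    rw [x.2.1]
    exact hR ⟨x.1.1, x.2.2⟩ p
  rw [Nat.card_eq_of_bijective F, Nat.card_eq_fintype_card, Fintype.card_perm, Fintype.card_fin]
  constructor
  · intro x x' e
    have e1 : x.1.1 = x'.1.1 := by
      funext p
      have h1 := hF x ((F x).symm p)
      have h2 := hF x' ((F x').symm p)
      rw [Equiv.apply_symm_apply] at h1 h2
      rw [h1, h2, e]
    obtain ⟨⟨u, σ⟩, h1, h2⟩ := x
    obtain ⟨⟨u', σ'⟩, h1', h2'⟩ := x'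
    simp only at e1
    subst e1
    have e2 : σ = σ' := mul_right_cancel e
    subst e2
    rfl
  · intro τ
    let u : Fin n → Fin m := fun p => g (τ.symm p)
    have hu : ∃ ρ : Perm (Fin n), ∀ p, u (ρ p) = g p := ⟨τ, fun p => by simp [u]⟩
    refine ⟨⟨⟨u, τ * (R ⟨u, hu⟩).symm⟩, ?_, hu⟩, ?_⟩
    · intro p
      simp only [Equiv.Perm.mul_apply, u, Equiv.symm_apply_apply]
      have h3 := hR ⟨u, hu⟩ ((R ⟨u, hu⟩).symm p)
      rw [Equiv.apply_symm_apply] at h3
      exact h3.symm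
    · ext p
      simp [F]

theorem card_XX (s : Fin n → ℕ) (hs : Monotone s) (m : ℕ) :
    Nat.card (XX s m) = n.factorial * Nat.card {g : Fin n → Fin m // IncOn s g} := by
  rw [card_XX_eq s hs m]
  have h1 : ∑ u : Fin n → Fin m, Nat.card (Stab u) * Nat.card (GG s u) =
      Nat.card (Σ u : Fin n → Fin m, (Stab u × GG s u)) := by
    rw [Nat.card_sigma]
    exact Finset.sum_congr rfl fun u _ => (Nat.card_prod _ _).symm
  rw [h1, Nat.card_eq_of_bijective _ (regroup_bijective s m)]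
  classical
  rw [Nat.card_sigma]
  simp only [card_fiber]
  rw [Finset.sum_const, smul_eq_mul, Finset.card_univ, Nat.card_eq_fintype_card, mul_comm]

end Q162Jack
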