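import Mathlib.Data.List.Sort
import Mathlib.Data.List.Nodup
import Mathlib.Tactic

/-!
# Row insertion and descents

We define Schensted row insertion and show that `i + 1` lies strictly below `i` in the insertion
tableau of a word with distinct letters if and only if `i + 1` is to the left of `i` in the word.
-/

namespace Q162Jack

/-- Row insertion of `x` into a row: `x` replaces the first entry larger than `x` (which is bumped),
or is appended at the end of the row when there is no such entry. -/
def rowInsert (x : ℕ) : List ℕ → List ℕ × Option ℕ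
  | [] => ([x], none)
  | y :: ys => if x < y then (x :: ys, some y) else (y :: (rowInsert x ys).1, (rowInsert x ys).2)

/-- Insertion of `x` into a tableau (list of rows from top to bottom): insert `x` into the first
row, and the bumped entry (if any) into the tableau formed by the remaining rows. -/
def insertTab : List (List ℕ) → ℕ → List (List ℕ)
  | [], x => [[x]]
  | r :: rs, x =>
    match (rowInsert x r).2 with
    | none => (rowInsert x r).1 :: rs
    | some y => (rowInsert x r).1 :: insertTab rs y

/-- The insertion tableau of a word. -/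
def insertionTableau (w : List ℕ) : List (List ℕ) := w.foldl insertTab []

/-- The index of the (first) row containing `v`. -/
def rowOf (T : List (List ℕ)) (v : ℕ) : ℕ := T.findIdx (fun r => decide (v ∈ r))

/-! ### Row insertion -/

theorem rowInsert_spec (x : ℕ) (r : List ℕ) (hs : r.Pairwise (· < ·)) (hx : x ∉ r) :
    ((rowInsert x r).2 = none → (∀ z ∈ r, z < x)) ∧
    ((rowInsert x r).2 = none → (rowInsert x r).1.Perm (x :: r)) ∧
    (∀ y, (rowInsert x r).2 = some y → y ∈ r ∧ x < y ∧ (∀ z ∈ r, x < z → y ≤ z) ∧
      (y :: (rowInsert x r).1).Perm (x :: r)) ∧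
    (rowInsert x r).1.Pairwise (· < ·) := by
  induction r with
  | nil => simp [rowInsert]
  | cons a t ih =>
    rw [List.pairwise_cons] at hs
    have hxa : x ≠ a := fun e => hx (by simp [e])
    have hxt : x ∉ t := fun e => hx (by simp [e])
    obtain ⟨i1, i2, i3, i4⟩ := ih hs.2 hxt
    by_cases h : x < a
    · have e : rowInsert x (a :: t) = (x :: t, some a) := by
        simp [rowInsert, h]
      rw [e]
      refine ⟨by simp, by simp, ?_, ?_⟩
      · intro y hy
        simp only [Option.some.injEq] at hy
        subst hy
        refine ⟨by simp, h, ?_, List.Perm.swap _ _ _⟩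
        intro z hz _
        rcases List.mem_cons.mp hz with rfl | hz
        · exact le_refl _
        · exact (hs.1 z hz).le
      · simp only [List.pairwise_cons]
        exact ⟨fun z hz => lt_trans h (hs.1 z hz), hs.2⟩
    · have e : rowInsert x (a :: t) = (a :: (rowInsert x t).1, (rowInsert x t).2) := by
        simp [rowInsert, h]
      rw [e]
      have hax : a < x := by omega
      refine ⟨?_, ?_, ?_, ?_⟩
      · intro hn z hz
        rcases List.mem_cons.mp hz with rfl | hz
        · exact hax
        · exact i1 hn z hz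
      · intro hn
        exact ((i2 hn).cons a).trans (List.Perm.swap _ _ _)
      · intro y hy
        obtain ⟨j1, j2, j3, j4⟩ := i3 y hy
        refine ⟨List.mem_cons_of_mem _ j1, j2, ?_, ?_⟩
        · intro z hz hxz
          rcases List.mem_cons.mp hz with rfl | hz
          · omega
          · exact j3 z hz hxz
        · exact (List.Perm.swap _ _ _).trans ((j4.cons a).trans (List.Perm.swap _ _ _))
      · simp only [List.pairwise_cons]
        refine ⟨?_, i4⟩
        intro z hz
        cases ho : (rowInsert x t).2 with
        | none =>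
          have := (i2 ho).mem_iff.mp hz
          rcases List.mem_cons.mp this with rfl | h'
          · exact hax
          · exact hs.1 z h'
        | some y =>
          have h1 : z ∈ y :: (rowInsert x t).1 := List.mem_cons_of_mem _ hz
          have := (i3 y ho).2.2.2.mem_iff.mp h1
          rcases List.mem_cons.mp this with rfl | h'
          · exact hax
          · exact hs.1 z h'

/-- Tableaux with increasing rows and distinct entries. -/
def Good (T : List (List ℕ)) : Prop := (∀ r ∈ T, r.Pairwise (· < ·)) ∧ T.flatten.Nodup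

theorem insertTab_perm (T : List (List ℕ)) : ∀ x, Good T → x ∉ T.flatten →
    (insertTab T x).flatten.Perm (x :: T.flatten) := by
  induction T with
  | nil => intro x _ _; simp [insertTab]
  | cons r rs ih =>
    intro x hT hx
    have hr : r.Pairwise (· < ·) := hT.1 r (by simp)
    have hxr : x ∉ r := fun h => hx (by simp [h])
    obtain ⟨_, h2, h3, _⟩ := rowInsert_spec x r hr hxr
    have hG : Good rs := ⟨fun r' h' => hT.1 r' (List.mem_cons_of_mem _ h'), by
      have := hT.2
      rw [List.flatten_cons, List.nodup_append] at this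
      exact this.2.1⟩
    cases ho : (rowInsert x r).2 with
    | none =>
      have e : insertTab (r :: rs) x = (rowInsert x r).1 :: rs := by
        simp [insertTab, ho]
      rw [e, List.flatten_cons, List.flatten_cons, ← List.cons_append]
      exact (h2 ho).append_right _
    | some y =>
      have e : insertTab (r :: rs) x = (rowInsert x r).1 :: insertTab rs y := by
        simp [insertTab, ho]
      obtain ⟨j1, _, _, j4⟩ := h3 y ho
      have hy : y ∉ rs.flatten := by
        have := hT.2
        rw [List.flatten_cons, List.nodup_append] at this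
        exact fun h => this.2.2 y j1 y h rfl
      rw [e, List.flatten_cons, List.flatten_cons]
      have h5 := ih y hG hy
      calc ((rowInsert x r).1 ++ (insertTab rs y).flatten).Perm
            ((rowInsert x r).1 ++ (y :: rs.flatten)) := h5.append_left _
        _ |>.Perm (y :: ((rowInsert x r).1 ++ rs.flatten)) := List.perm_middle
        _ |>.Perm (x :: (r ++ rs.flatten)) := by
            rw [← List.cons_append, ← List.cons_append]
            exact j4.append_right _

theorem good_cons (r : List ℕ) (rs : List (List ℕ)) (h : Good (r :: rs)) :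
    r.Pairwise (· < ·) ∧ Good rs ∧ (∀ y ∈ r, y ∉ rs.flatten) := by
  have h2 := h.2
  rw [List.flatten_cons, List.nodup_append] at h2
  exact ⟨h.1 r (by simp), ⟨fun r' h' => h.1 r' (List.mem_cons_of_mem _ h'), h2.2.1⟩,
    fun y hy h' => h2.2.2 y hy y h' rfl⟩

theorem insertTab_rows (T : List (List ℕ)) : ∀ x, Good T → x ∉ T.flatten →
    ∀ r ∈ insertTab T x, r.Pairwise (· < ·) := by
  induction T with
  | nil =>
    intro x _ _ r hr
    simp only [insertTab, List.mem_singleton] at hr
    subst hr
    simp
  | cons r rs ih =>
    intro x hT hx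
    obtain ⟨hr, hG, hd⟩ := good_cons r rs hT
    have hxr : x ∉ r := fun h => hx (by simp [h])
    obtain ⟨_, _, h3, h4⟩ := rowInsert_spec x r hr hxr
    cases ho : (rowInsert x r).2 with
    | none =>
      have e : insertTab (r :: rs) x = (rowInsert x r).1 :: rs := by
        simp [insertTab, ho]
      rw [e]
      intro r' hr'
      rcases List.mem_cons.mp hr' with rfl | h'
      · exact h4
      · exact hT.1 r' (List.mem_cons_of_mem _ h')
    | some y =>
      have e : insertTab (r :: rs) x = (rowInsert x r).1 :: insertTab rs y := by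
        simp [insertTab, ho]
      rw [e]
      intro r' hr'
      rcases List.mem_cons.mp hr' with rfl | h'
      · exact h4
      · exact ih y hG (hd y (h3 y ho).1) r' h'

theorem insertTab_good (T : List (List ℕ)) (x : ℕ) (hT : Good T) (hx : x ∉ T.flatten) :
    Good (insertTab T x) := by
  refine ⟨insertTab_rows T x hT hx, ?_⟩
  rw [(insertTab_perm T x hT hx).nodup_iff]
  exact List.nodup_cons.mpr ⟨hx, hT.2⟩

theorem mem_insertTab (T : List (List ℕ)) (x z : ℕ) (hT : Good T) (hx : x ∉ T.flatten) :
    z ∈ (insertTab T x).flatten ↔ z = x ∨ z ∈ T.flatten := by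
  rw [(insertTab_perm T x hT hx).mem_iff, List.mem_cons]

/-- `a` lies strictly above `b`. -/
def Above (a b : ℕ) : List (List ℕ) → Prop
  | [] => False
  | r :: rs => (a ∈ r ∧ b ∈ rs.flatten) ∨ Above a b rs

/-- `b` lies weakly above `a`. -/
def Weak (a b : ℕ) : List (List ℕ) → Prop
  | [] => False
  | r :: rs => (b ∈ r ∧ (a ∈ r ∨ a ∈ rs.flatten)) ∨ Weak a b rs

theorem Above.mem {a b : ℕ} : ∀ {T : List (List ℕ)}, Above a b T → a ∈ T.flatten ∧ b ∈ T.flatten
  | [], h => h.elim
  | r :: rs, h => by
    rw [List.flatten_cons, List.mem_append, List.mem_append]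
    rcases h with ⟨h1, h2⟩ | h
    · exact ⟨Or.inl h1, Or.inr h2⟩
    · exact ⟨Or.inr h.mem.1, Or.inr h.mem.2⟩

theorem Weak.mem {a b : ℕ} : ∀ {T : List (List ℕ)}, Weak a b T → a ∈ T.flatten ∧ b ∈ T.flatten
  | [], h => h.elim
  | r :: rs, h => by
    rw [List.flatten_cons, List.mem_append, List.mem_append]
    rcases h with ⟨h1, h2⟩ | h
    · exact ⟨h2, Or.inl h1⟩
    · exact ⟨Or.inr h.mem.1, Or.inr h.mem.2⟩

/-- The two cases of an insertion into a nonempty tableau. -/
theorem insertTab_cases (r : List ℕ) (rs : List (List ℕ)) (x : ℕ) (hT : Good (r :: rs))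
    (hx : x ∉ (r :: rs).flatten) :
    (∃ r', insertTab (r :: rs) x = r' :: rs ∧ (∀ z, z ∈ r' ↔ z = x ∨ z ∈ r) ∧ ∀ z ∈ r, z < x) ∨
    (∃ r' y, insertTab (r :: rs) x = r' :: insertTab rs y ∧ y ∈ r ∧ x < y ∧
      (∀ z ∈ r, x < z → y ≤ z) ∧ x ∈ r' ∧ (∀ z, z ≠ y → z ∈ r → z ∈ r') ∧ y ∉ rs.flatten) := by
  obtain ⟨hr, hG, hd⟩ := good_cons r rs hT
  have hxr : x ∉ r := fun h => hx (by simp [h])
  obtain ⟨h1, h2, h3, h4⟩ := rowInsert_spec x r hr hxr
  cases ho : (rowInsert x r).2 with
  | none =>
    left
    refine ⟨(rowInsert x r).1, by simp [insertTab, ho], ?_, h1 ho⟩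
    intro z
    rw [(h2 ho).mem_iff, List.mem_cons]
  | some y =>
    right
    obtain ⟨j1, j2, j3, j4⟩ := h3 y ho
    refine ⟨(rowInsert x r).1, y, by simp [insertTab, ho], j1, j2, j3, ?_, ?_, hd y j1⟩
    · have : x ∈ y :: (rowInsert x r).1 := j4.mem_iff.mpr (by simp)
      rcases List.mem_cons.mp this with e | h
      · omega
      · exact h
    · intro z hz hzr
      have : z ∈ y :: (rowInsert x r).1 := j4.mem_iff.mpr (by simp [hzr])
      rcases List.mem_cons.mp this with e | h
      · exact absurd e hz
      · exact h

theorem above_of_insert_left (T : List (List ℕ)) (a : ℕ) (hT : Good T) (ha : a ∉ T.flatten)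
    (hb : a + 1 ∈ T.flatten) : Above a (a + 1) (insertTab T a) := by
  cases T with
  | nil => simp at hb
  | cons r rs =>
    obtain ⟨hr, hG, hd⟩ := good_cons r rs hT
    rcases insertTab_cases r rs a hT ha with ⟨r', e, h1, h2⟩ | ⟨r', y, e, h1, h2, h3, h4, h5, h6⟩
    · rw [e]
      rw [List.flatten_cons, List.mem_append] at hb
      rcases hb with hb | hb
      · have := h2 _ hb
        omega
      · exact Or.inl ⟨(h1 a).mpr (Or.inl rfl), hb⟩
    · rw [e]
      refine Or.inl ⟨h4, ?_⟩
      rw [mem_insertTab rs y _ hG h6]
      rw [List.flatten_cons, List.mem_append] at hb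
      rcases hb with hb | hb
      · left
        have := h3 _ hb (by omega)
        omega
      · exact Or.inr hb

theorem weak_of_insert_right (T : List (List ℕ)) (a : ℕ) (hT : Good T)
    (hb : a + 1 ∉ T.flatten) (ha : a ∈ T.flatten) : Weak a (a + 1) (insertTab T (a + 1)) := by
  cases T with
  | nil => simp at ha
  | cons r rs =>
    obtain ⟨hr, hG, hd⟩ := good_cons r rs hT
    rcases insertTab_cases r rs (a + 1) hT hb with
      ⟨r', e, h1, h2⟩ | ⟨r', y, e, h1, h2, h3, h4, h5, h6⟩
    · rw [e]
      refine Or.inl ⟨(h1 _).mpr (Or.inl rfl), ?_⟩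
      rw [List.flatten_cons, List.mem_append] at ha
      rcases ha with ha | ha
      · exact Or.inl ((h1 _).mpr (Or.inr ha))
      · exact Or.inr ha
    · rw [e]
      refine Or.inl ⟨h4, ?_⟩
      rw [List.flatten_cons, List.mem_append] at ha
      rcases ha with ha | ha
      · exact Or.inl (h5 a (by omega) ha)
      · right
        rw [mem_insertTab rs y _ hG h6]
        exact Or.inr ha

theorem above_insert (T : List (List ℕ)) (a : ℕ) : ∀ x, Good T → x ∉ T.flatten →
    Above a (a + 1) T → Above a (a + 1) (insertTab T x) := by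
  induction T with
  | nil => intro x _ _ h; exact h.elim
  | cons r rs ih =>
    intro x hT hx h
    obtain ⟨hr, hG, hd⟩ := good_cons r rs hT
    rcases insertTab_cases r rs x hT hx with ⟨r', e, h1, h2⟩ | ⟨r', y, e, h1, h2, h3, h4, h5, h6⟩
    · rw [e]
      rcases h with ⟨ha, hb⟩ | h
      · exact Or.inl ⟨(h1 _).mpr (Or.inr ha), hb⟩
      · exact Or.inr h
    · rw [e]
      rcases h with ⟨ha, hb⟩ | h
      · by_cases hy : a = y
        · right
          rw [← hy] at h6 ⊢
          exact above_of_insert_left rs a hG h6 hb
        · refine Or.inl ⟨h5 a hy ha, ?_⟩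
          rw [mem_insertTab rs y _ hG h6]
          exact Or.inr hb
      · exact Or.inr (ih y hG h6 h)

theorem weak_insert (T : List (List ℕ)) (a : ℕ) : ∀ x, Good T → x ∉ T.flatten →
    Weak a (a + 1) T → Weak a (a + 1) (insertTab T x) := by
  induction T with
  | nil => intro x _ _ h; exact h.elim
  | cons r rs ih =>
    intro x hT hx h
    obtain ⟨hr, hG, hd⟩ := good_cons r rs hT
    have hmem := h.mem
    have hxa : x ≠ a := fun e => hx (e ▸ hmem.1)
    rcases insertTab_cases r rs x hT hx with ⟨r', e, h1, h2⟩ | ⟨r', y, e, h1, h2, h3, h4, h5, h6⟩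
    · rw [e]
      rcases h with ⟨hb, ha⟩ | h
      · refine Or.inl ⟨(h1 _).mpr (Or.inr hb), ?_⟩
        rcases ha with ha | ha
        · exact Or.inl ((h1 _).mpr (Or.inr ha))
        · exact Or.inr ha
      · exact Or.inr h
    · rw [e]
      rcases h with ⟨hb, ha⟩ | h
      · by_cases hy : a + 1 = y
        · right
          rw [← hy] at h6 ⊢
          apply weak_of_insert_right rs a hG h6
          rcases ha with ha | ha
          · exfalso
            have := h3 a ha (by omega)
            omega
          · exact ha
        · refine Or.inl ⟨h5 _ hy hb, ?_⟩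
          rcases ha with ha | ha
          · by_cases hya : a = y
            · right
              rw [mem_insertTab rs y _ hG h6]
              exact Or.inl hya
            · exact Or.inl (h5 a hya ha)
          · right
            rw [mem_insertTab rs y _ hG h6]
            exact Or.inr ha
      · exact Or.inr (ih y hG h6 h)

/-! ### The insertion tableau -/

theorem foldl_insert (w : List ℕ) : ∀ T, Good T → (w ++ T.flatten).Nodup →
    Good (w.foldl insertTab T) ∧ ∀ z, z ∈ (w.foldl insertTab T).flatten ↔ z ∈ w ∨ z ∈ T.flatten := by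
  induction w with
  | nil => intro T hT _; simp [hT]
  | cons x w ih =>
    intro T hT hn
    rw [List.cons_append, List.nodup_cons, List.mem_append] at hn
    have hx : x ∉ T.flatten := fun h => hn.1 (Or.inr h)
    have hG := insertTab_good T x hT hx
    rw [List.foldl_cons]
    have hn2 : (w ++ (insertTab T x).flatten).Nodup := by
      have h1 : (w ++ (insertTab T x).flatten).Perm (w ++ (x :: T.flatten)) :=
        (insertTab_perm T x hT hx).append_left _
      have h2 : (w ++ (x :: T.flatten)).Perm (x :: (w ++ T.flatten)) := List.perm_middle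
      rw [(h1.trans h2).nodup_iff, List.nodup_cons, List.mem_append]
      exact hn
    obtain ⟨g1, g2⟩ := ih _ hG hn2
    refine ⟨g1, fun z => ?_⟩
    rw [g2, mem_insertTab T x z hT hx, List.mem_cons]
    tauto

theorem foldl_above (a : ℕ) (w : List ℕ) : ∀ T, Good T → (w ++ T.flatten).Nodup →
    Above a (a + 1) T → Above a (a + 1) (w.foldl insertTab T) := by
  induction w with
  | nil => intro T _ _ h; exact h
  | cons x w ih =>
    intro T hT hn h
    rw [List.cons_append, List.nodup_cons, List.mem_append] at hn
    have hx : x ∉ T.flatten := fun h => hn.1 (Or.inr h)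
    have hG := insertTab_good T x hT hx
    rw [List.foldl_cons]
    have hn2 : (w ++ (insertTab T x).flatten).Nodup := by
      have h1 : (w ++ (insertTab T x).flatten).Perm (w ++ (x :: T.flatten)) :=
        (insertTab_perm T x hT hx).append_left _
      have h2 : (w ++ (x :: T.flatten)).Perm (x :: (w ++ T.flatten)) := List.perm_middle
      rw [(h1.trans h2).nodup_iff, List.nodup_cons, List.mem_append]
      exact hn
    exact ih _ hG hn2 (above_insert T a x hT hx h)

theorem foldl_weak (a : ℕ) (w : List ℕ) : ∀ T, Good T → (w ++ T.flatten).Nodup →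
    Weak a (a + 1) T → Weak a (a + 1) (w.foldl insertTab T) := by
  induction w with
  | nil => intro T _ _ h; exact h
  | cons x w ih =>
    intro T hT hn h
    rw [List.cons_append, List.nodup_cons, List.mem_append] at hn
    have hx : x ∉ T.flatten := fun h => hn.1 (Or.inr h)
    have hG := insertTab_good T x hT hx
    rw [List.foldl_cons]
    have hn2 : (w ++ (insertTab T x).flatten).Nodup := by
      have h1 : (w ++ (insertTab T x).flatten).Perm (w ++ (x :: T.flatten)) :=
        (insertTab_perm T x hT hx).append_left _
      have h2 : (w ++ (x :: T.flatten)).Perm (x :: (w ++ T.flatten)) := List.perm_middle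
      rw [(h1.trans h2).nodup_iff, List.nodup_cons, List.mem_append]
      exact hn
    exact ih _ hG hn2 (weak_insert T a x hT hx h)

theorem good_nil : Good [] := ⟨by simp, by simp⟩

/-- `a + 1` to the left of `a`: then `a` is strictly above `a + 1`. -/
theorem above_of_word (w₁ w₂ : List ℕ) (a : ℕ) (hn : (w₁ ++ a :: w₂).Nodup) (hb : a + 1 ∈ w₁) :
    Above a (a + 1) (insertionTableau (w₁ ++ a :: w₂)) := by
  have hn' := hn
  rw [List.nodup_append] at hn'
  obtain ⟨n1, n2, n3⟩ := hn'
  have ha : a ∉ w₁ := fun h => n3 a h a (by simp) rfl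
  obtain ⟨g1, g2⟩ := foldl_insert w₁ [] good_nil (by simpa using n1)
  unfold insertionTableau
  rw [List.foldl_append, List.foldl_cons]
  set T := w₁.foldl insertTab [] with hT
  have haT : a ∉ T.flatten := by
    rw [g2]
    simpa using ha
  have hbT : a + 1 ∈ T.flatten := by
    rw [g2]
    exact Or.inl hb
  apply foldl_above a w₂ _ (insertTab_good T a g1 haT)
  · rw [List.nodup_append]
    refine ⟨(List.nodup_cons.mp n2).2, (insertTab_good T a g1 haT).2, ?_⟩
    intro z hz z' hz' e
    subst e
    rw [mem_insertTab T a z g1 haT, g2] at hz'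
    rcases hz' with rfl | h | h
    · exact (List.nodup_cons.mp n2).1 hz
    · exact n3 z h z (List.mem_cons_of_mem _ hz) rfl
    · simp at h
  · exact above_of_insert_left T a g1 haT hbT

/-- `a` to the left of `a + 1`: then `a + 1` is weakly above `a`. -/
theorem weak_of_word (w₁ w₂ : List ℕ) (a : ℕ) (hn : (w₁ ++ (a + 1) :: w₂).Nodup) (hb : a ∈ w₁) :
    Weak a (a + 1) (insertionTableau (w₁ ++ (a + 1) :: w₂)) := by
  have hn' := hn
  rw [List.nodup_append] at hn'
  obtain ⟨n1, n2, n3⟩ := hn'
  have ha : a + 1 ∉ w₁ := fun h => n3 (a + 1) h (a + 1) (by simp) rfl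
  obtain ⟨g1, g2⟩ := foldl_insert w₁ [] good_nil (by simpa using n1)
  unfold insertionTableau
  rw [List.foldl_append, List.foldl_cons]
  set T := w₁.foldl insertTab [] with hT
  have haT : a + 1 ∉ T.flatten := by
    rw [g2]
    simpa using ha
  have hbT : a ∈ T.flatten := by
    rw [g2]
    exact Or.inl hb
  apply foldl_weak a w₂ _ (insertTab_good T (a + 1) g1 haT)
  · rw [List.nodup_append]
    refine ⟨(List.nodup_cons.mp n2).2, (insertTab_good T (a + 1) g1 haT).2, ?_⟩
    intro z hz z' hz' e
    subst e
    rw [mem_insertTab T (a + 1) z g1 haT, g2] at hz'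
    rcases hz' with rfl | h | h
    · exact (List.nodup_cons.mp n2).1 hz
    · exact n3 z h z (List.mem_cons_of_mem _ hz) rfl
    · simp at h
  · exact weak_of_insert_right T a g1 haT hbT

theorem rowOf_cons (r : List ℕ) (rs : List (List ℕ)) (v : ℕ) :
    rowOf (r :: rs) v = if v ∈ r then 0 else rowOf rs v + 1 := by
  unfold rowOf
  rw [List.findIdx_cons]
  split_ifs with h
  · simp [h]
  · simp [h]

theorem rowOf_lt_of_above (a b : ℕ) (T : List (List ℕ)) (hT : Good T) (h : Above a b T) :
    rowOf T a < rowOf T b := by
  induction T with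
  | nil => exact h.elim
  | cons r rs ih =>
    obtain ⟨hr, hG, hd⟩ := good_cons r rs hT
    rw [rowOf_cons, rowOf_cons]
    rcases h with ⟨ha, hb⟩ | h
    · have hb' : b ∉ r := fun h' => hd b h' hb
      rw [if_pos ha, if_neg hb']
      omega
    · have ha' : a ∉ r := fun h' => hd a h' h.mem.1
      have hb' : b ∉ r := fun h' => hd b h' h.mem.2
      rw [if_neg ha', if_neg hb']
      have := ih hG h
      omega

theorem rowOf_le_of_weak (a b : ℕ) (T : List (List ℕ)) (hT : Good T) (h : Weak a b T) :
    rowOf T b ≤ rowOf T a := by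
  induction T with
  | nil => exact h.elim
  | cons r rs ih =>
    obtain ⟨hr, hG, hd⟩ := good_cons r rs hT
    rw [rowOf_cons, rowOf_cons]
    rcases h with ⟨hb, _⟩ | h
    · rw [if_pos hb]
      omega
    · have ha' : a ∉ r := fun h' => hd a h' h.mem.1
      have hb' : b ∉ r := fun h' => hd b h' h.mem.2
      rw [if_neg ha', if_neg hb']
      have := ih hG h
      omega

/-- The descents of the insertion tableau of an injective word indexed by `Fin n`. -/
theorem rowOf_lt_iff {n : ℕ} (f : Fin n → ℕ) (hf : Function.Injective f) (p q : Fin n) (a : ℕ)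
    (hp : f p = a) (hq : f q = a + 1) :
    rowOf (insertionTableau (List.ofFn f)) a < rowOf (insertionTableau (List.ofFn f)) (a + 1) ↔
      q < p := by
  have hnod : (List.ofFn f).Nodup := List.nodup_ofFn.mpr hf
  have hG : Good (insertionTableau (List.ofFn f)) :=
    (foldl_insert (List.ofFn f) [] good_nil (by simpa using hnod)).1
  have hlen : (List.ofFn f).length = n := List.length_ofFn
  have hsplit : ∀ i : Fin n, List.ofFn f = (List.ofFn f).take i ++ f i :: (List.ofFn f).drop (i + 1) := by
    intro i
    have h1 : (i : ℕ) < (List.ofFn f).length := by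
      rw [hlen]
      exact i.2
    conv_lhs => rw [← List.take_append_drop i (List.ofFn f)]
    rw [List.drop_eq_getElem_cons h1, List.getElem_ofFn]
  have hmem : ∀ i j : Fin n, i < j → f i ∈ (List.ofFn f).take j := by
    intro i j hij
    rw [List.mem_take_iff_getElem]
    refine ⟨i, ?_, ?_⟩
    · rw [hlen, lt_min_iff]
      exact ⟨hij, i.2⟩
    · rw [List.getElem_ofFn]
  constructor
  · intro h
    rcases lt_trichotomy q p with h1 | h1 | h1
    · exact h1
    · exfalso
      rw [h1, hp] at hq
      omega
    · exfalso
      have e := hsplit q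
      rw [hq] at e
      have h2 := weak_of_word ((List.ofFn f).take q) ((List.ofFn f).drop (q + 1)) a
        (by rw [← e]; exact hnod) (by rw [← hp]; exact hmem p q h1)
      rw [← e] at h2
      have := rowOf_le_of_weak _ _ _ hG h2
      omega
  · intro h1
    have e := hsplit p
    rw [hp] at e
    have h2 := above_of_word ((List.ofFn f).take p) ((List.ofFn f).drop (p + 1)) a
      (by rw [← e]; exact hnod) (by rw [← hq]; exact hmem q p h1)
    rw [← e] at h2
    exact rowOf_lt_of_above _ _ _ hG h2

end Q162Jack
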