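import Mathlib.Order.Partition.Finpartition
import Mathlib.Data.Fintype.CardEmbedding
import Pool.Agent.Q162.Jack.Count
import Pool.Agent.Q162.Jack.RSK

/-!
# Refilling along a set partition
-/

namespace Q162Jack

open Equiv Finset

variable {n : ℕ}

theorem refill_aux (β : Finpartition (univ : Finset (Fin n))) (π : Perm (Fin n)) (p : Fin n) :
    (univ.filter (fun q => q < p ∧ π q ∈ β.part (π p))).card < (β.part (π p)).card := by
  rw [← Finset.card_map π.toEmbedding]
  apply Finset.card_lt_card
  rw [Finset.ssubset_iff_of_subset]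
  · refine ⟨π p, β.mem_part (mem_univ _), ?_⟩
    intro h
    rw [Finset.mem_map] at h
    obtain ⟨q, hq, e⟩ := h
    rw [mem_filter] at hq
    have : q = p := π.injective e
    rw [this] at hq
    exact lt_irrefl _ hq.2.1
  · intro x hx
    rw [Finset.mem_map] at hx
    obtain ⟨q, hq, e⟩ := hx
    rw [mem_filter] at hq
    rw [← e]
    exact hq.2.2

/-- The letter in position `p` of `f_β(π)`: if `B` is the block of `β` containing `π p`, and there
are `r` positions to the left of `p` with a letter in `B`, it is the element of `B` having exactly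
`r` smaller elements in `B`. -/
noncomputable def refill (β : Finpartition (univ : Finset (Fin n))) (π : Perm (Fin n))
    (p : Fin n) : Fin n :=
  (β.part (π p)).orderEmbOfFin rfl
    ⟨(univ.filter (fun q => q < p ∧ π q ∈ β.part (π p))).card, refill_aux β π p⟩

theorem refill_mem (β : Finpartition (univ : Finset (Fin n))) (π : Perm (Fin n)) (p : Fin n) :
    refill β π p ∈ β.part (π p) := (β.part (π p)).orderEmbOfFin_mem rfl _

theorem part_eq_of_mem (β : Finpartition (univ : Finset (Fin n))) (x y : Fin n)
    (h : x ∈ β.part y) : β.part x = β.part y :=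
  β.part_eq_of_mem (β.part_mem.mpr (mem_univ _)) h

theorem part_refill (β : Finpartition (univ : Finset (Fin n))) (π : Perm (Fin n)) (p : Fin n) :
    β.part (refill β π p) = β.part (π p) := part_eq_of_mem β _ _ (refill_mem β π p)

theorem refill_lt (β : Finpartition (univ : Finset (Fin n))) (π : Perm (Fin n)) (p q : Fin n)
    (hpq : p < q) (h : β.part (π p) = β.part (π q)) : refill β π p < refill β π q := by
  have key : ∀ (A B : Finset (Fin n)) (i : ℕ) (hi : i < A.card) (j : ℕ) (hj : j < B.card),
      A = B → i < j → A.orderEmbOfFin rfl ⟨i, hi⟩ < B.orderEmbOfFin rfl ⟨j, hj⟩ := by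
    intro A B i hi j hj e hij
    subst e
    exact (A.orderEmbOfFin rfl).lt_iff_lt.mpr hij
  unfold refill
  apply key _ _ _ _ _ _ h
  apply Finset.card_lt_card
  rw [Finset.ssubset_iff_of_subset]
  · refine ⟨p, ?_, ?_⟩
    · rw [mem_filter]
      refine ⟨mem_univ _, hpq, ?_⟩
      rw [← h]
      exact β.mem_part (mem_univ _)
    · rw [mem_filter]
      exact fun h' => lt_irrefl _ h'.2.1
  · intro x hx
    rw [mem_filter] at hx ⊢
    refine ⟨mem_univ _, lt_trans hx.2.1 hpq, ?_⟩
    rw [← h]
    exact hx.2.2

theorem refill_injective (β : Finpartition (univ : Finset (Fin n))) (π : Perm (Fin n)) :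
    Function.Injective (refill β π) := by
  intro p q h
  have h1 : β.part (π p) = β.part (π q) := by
    rw [← part_refill, ← part_refill β π q, h]
  rcases lt_trichotomy p q with h2 | h2 | h2
  · exact absurd h (refill_lt β π p q h2 h1).ne
  · exact h2
  · exact absurd h (refill_lt β π q p h2 h1.symm).ne'

/-- `f_β(π)` as a permutation. -/
noncomputable def refillPerm (β : Finpartition (univ : Finset (Fin n))) (π : Perm (Fin n)) :
    Perm (Fin n) :=
  Equiv.ofBijective (refill β π) (Finite.injective_iff_bijective.mp (refill_injective β π))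

theorem refillPerm_apply (β : Finpartition (univ : Finset (Fin n))) (π : Perm (Fin n))
    (p : Fin n) : refillPerm β π p = refill β π p := rfl

/-- A colouring whose classes are the blocks of `β`. -/
def Compat {m : ℕ} (β : Finpartition (univ : Finset (Fin n))) (c : Fin n → Fin m) : Prop :=
  ∀ x y, c x = c y ↔ β.part x = β.part y

theorem finpartition_ext (β β' : Finpartition (univ : Finset (Fin n)))
    (h : ∀ x y, β.part x = β.part y ↔ β'.part x = β'.part y) : β = β' := by
  have hp : ∀ x, β.part x = β'.part x := by
    intro x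
    ext y
    rw [β.mem_part_iff_part_eq_part (mem_univ _) (mem_univ _),
      β'.mem_part_iff_part_eq_part (mem_univ _) (mem_univ _)]
    exact h y x
  apply Finpartition.ext
  ext t
  constructor
  · intro ht
    obtain ⟨x, hx⟩ := β.nonempty_of_mem_parts ht
    rw [← β.part_eq_of_mem ht hx, hp]
    exact β'.part_mem.mpr (mem_univ _)
  · intro ht
    obtain ⟨x, hx⟩ := β'.nonempty_of_mem_parts ht
    rw [← β'.part_eq_of_mem ht hx, ← hp]
    exact β.part_mem.mpr (mem_univ _)

theorem compat_unique {m : ℕ} (β β' : Finpartition (univ : Finset (Fin n))) (c : Fin n → Fin m)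
    (h : Compat β c) (h' : Compat β' c) : β = β' :=
  finpartition_ext β β' fun x y => (h x y).symm.trans (h' x y)

theorem exists_compat {m : ℕ} (c : Fin n → Fin m) :
    ∃ β : Finpartition (univ : Finset (Fin n)), Compat β c := by
  classical
  refine ⟨Finpartition.ofSetoid (Setoid.ker c), ?_⟩
  intro x y
  rw [← (Finpartition.ofSetoid (Setoid.ker c)).mem_part_iff_part_eq_part (mem_univ _) (mem_univ _),
    Finpartition.mem_part_ofSetoid_iff_rel]
  exact eq_comm

theorem card_compat (m : ℕ) (β : Finpartition (univ : Finset (Fin n))) :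
    Nat.card {c : Fin n → Fin m // Compat β c} = m.descFactorial β.parts.card := by
  classical
  have h1 : Nat.card (β.parts ↪ Fin m) = m.descFactorial β.parts.card := by
    rw [Nat.card_eq_fintype_card, Fintype.card_embedding_eq, Fintype.card_fin, Fintype.card_coe]
  rw [← h1]
  let F : (β.parts ↪ Fin m) → {c : Fin n → Fin m // Compat β c} := fun e =>
    ⟨fun x => e ⟨β.part x, β.part_mem.mpr (mem_univ _)⟩, by
      intro x y
      constructor
      · intro h
        have := e.injective h
        exact congrArg Subtype.val this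
      · intro h
        have h2 : (⟨β.part x, β.part_mem.mpr (mem_univ _)⟩ : β.parts) =
          ⟨β.part y, β.part_mem.mpr (mem_univ _)⟩ := Subtype.ext h
        exact congrArg e h2⟩
  symm
  apply Nat.card_eq_of_bijective F
  constructor
  · intro e e' h
    ext ⟨t, ht⟩
    obtain ⟨x, hx⟩ := β.nonempty_of_mem_parts ht
    have h2 := congrFun (congrArg Subtype.val h) x
    have h3 : (⟨β.part x, β.part_mem.mpr (mem_univ _)⟩ : β.parts) = ⟨t, ht⟩ :=
      Subtype.ext (β.part_eq_of_mem ht hx)
    simp only [F, h3] at h2
    rw [h2]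
  · rintro ⟨c, hc⟩
    have hne : ∀ t : β.parts, ∃ x, x ∈ t.1 := fun t => β.nonempty_of_mem_parts t.2
    choose r hr using hne
    refine ⟨⟨fun t => c (r t), ?_⟩, ?_⟩
    · intro t t' h
      have := (hc _ _).mp h
      rw [β.part_eq_of_mem t.2 (hr t), β.part_eq_of_mem t'.2 (hr t')] at this
      exact Subtype.ext this
    · apply Subtype.ext
      funext x
      apply (hc _ _).mpr
      exact β.part_eq_of_mem (β.part_mem.mpr (mem_univ _)) (hr _)

/-- The refill is determined by its two properties. -/
theorem refill_unique {m : ℕ} (β : Finpartition (univ : Finset (Fin n))) (c : Fin n → Fin m)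
    (hc : Compat β c) (π w : Perm (Fin n)) (h1 : ∀ p, c (w p) = c (π p))
    (h2 : IncOn (fun p => c (π p)) w) : refillPerm β π = w := by
  ext p
  have e : ∀ p, refillPerm β π p = w ((w.symm * refillPerm β π : Perm (Fin n)) p) := by
    intro p
    simp
  have h3 : ∀ p, c (refillPerm β π p) = c (π p) := fun p => (hc _ _).mpr (part_refill β π p)
  have := incOn_unique (fun p => c (π p)) w (w.symm * refillPerm β π : Perm (Fin n)) ?_ h2 ?_ p
  · rw [← e] at this
    rw [this]
  · intro p
    rw [← h1 ((w.symm * refillPerm β π : Perm (Fin n)) p), ← e, h3]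
  · intro p q hpq hu
    simp only [← e]
    exact (refill_lt β π p q hpq ((hc _ _).mp hu)).le

theorem refill_incOn {m : ℕ} (β : Finpartition (univ : Finset (Fin n))) (c : Fin n → Fin m)
    (hc : Compat β c) (π : Perm (Fin n)) : IncOn (fun p => c (π p)) (refillPerm β π) :=
  fun p q hpq hu => (refill_lt β π p q hpq ((hc _ _).mp hu)).le

theorem refill_color {m : ℕ} (β : Finpartition (univ : Finset (Fin n))) (c : Fin n → Fin m)
    (hc : Compat β c) (π : Perm (Fin n)) (p : Fin n) : c (refillPerm β π p) = c (π p) :=
  (hc _ _).mpr (part_refill β π p)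

/-! ### Descents and the strictness condition -/

/-- The word (with letters `1, …, n`) of a function on positions. -/
def word (f : Fin n → Fin n) : List ℕ := List.ofFn (fun p => (f p : ℕ) + 1)

/-- The descent set of a tableau with entries `1, …, n`: the `i` such that `i + 1` lies in a row
strictly below the row of `i`. -/
def descents (n : ℕ) (T : List (List ℕ)) : Set ℕ :=
  {i | 1 ≤ i ∧ i + 1 ≤ n ∧ rowOf T i < rowOf T (i + 1)}

theorem mem_descents_iff (w : Perm (Fin n)) (j k : Fin n) (hjk : (k : ℕ) = j + 1) :
    (j : ℕ) + 1 ∈ descents n (insertionTableau (word w)) ↔ w.symm k < w.symm j := by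
  unfold descents
  have hinj : Function.Injective (fun p => ((w p : Fin n) : ℕ) + 1) := by
    intro p q h
    apply w.injective
    apply Fin.ext
    simpa using h
  have h := rowOf_lt_iff (fun p => ((w p : Fin n) : ℕ) + 1) hinj (w.symm j) (w.symm k) (j + 1)
    (by simp) (by simp [hjk])
  rw [Set.mem_ofPred_eq]
  constructor
  · rintro ⟨-, -, h3⟩
    exact h.mp h3
  · intro h3
    refine ⟨by omega, ?_, h.mpr h3⟩
    have := k.2
    omega

theorem chain_le {f : Fin n → Fin n} (x : Fin n) : ∀ (d : ℕ) (y : Fin n), (y : ℕ) = x + d →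
    (∀ j k : Fin n, x ≤ j → k ≤ y → (k : ℕ) = j + 1 → f j ≤ f k) → f x ≤ f y := by
  intro d
  induction d with
  | zero =>
    intro y hy _
    have : y = x := Fin.ext (by omega)
    rw [this]
  | succ d ih =>
    intro y hy h
    have hlt : (x : ℕ) + d < n := by
      have := y.2
      omega
    have h1 := ih ⟨x + d, hlt⟩ rfl (by
      intro j k hj hk hjk
      apply h j k hj _ hjk
      rw [Fin.le_def] at hk ⊢
      simp only at hk
      omega)
    refine le_trans h1 (h _ _ ?_ le_rfl (by simp only; omega))
    rw [Fin.le_def]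
    simp only
    omega

theorem strict_iff (s : Fin n → ℕ) (hs : Monotone s) (w : Perm (Fin n)) :
    (∀ j k : Fin n, (k : ℕ) = j + 1 → (j : ℕ) + 1 ∈ descents n (insertionTableau (word w)) →
      s j < s k) ↔ IncOn s w.symm := by
  constructor
  · intro h x y hxy hsxy
    apply chain_le x (y - x) y
    · have : (x : ℕ) < y := hxy
      omega
    · intro j k hj hk hjk
      by_contra hlt
      push Not at hlt
      have h1 := h j k hjk ((mem_descents_iff w j k hjk).mpr hlt)
      have h2 : s x ≤ s j := hs hj
      have h3 : s k ≤ s y := hs hk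
      omega
  · intro h j k hjk hd
    rw [mem_descents_iff w j k hjk] at hd
    have hlt : j < k := by
      rw [Fin.lt_def]
      omega
    rcases (hs hlt.le).lt_or_eq with h1 | h1
    · exact h1
    · exact absurd (h j k hlt h1) (not_le.mpr hd)

end Q162Jack
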