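import Mathlib.RingTheory.MvPowerSeries.Basic
import Mathlib.RingTheory.Polynomial.Pochhammer
import Mathlib.Combinatorics.Enumerative.Partition.Basic
import Pool.Agent.Q162.Jack.Refill

/-!
# Definitions: quasisymmetric and symmetric functions, the one-row Jack polynomial
-/

namespace Q162Jack

open Finset

/-- Formal power series in `x_0, x_1, …` with coefficients in `ℤ[α]`. -/
abbrev Ser : Type := MvPowerSeries ℕ (Polynomial ℤ)

/-- The exponent vector of the monomial `x_{i 0} x_{i 1} ⋯ x_{i (n-1)}`. -/
noncomputable def content {n : ℕ} (i : Fin n → ℕ) : ℕ →₀ ℕ := ∑ j, Finsupp.single (i j) 1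

/-- The index sequences of the fundamental quasisymmetric function `F_S`: weakly increasing
sequences `i_1 ≤ ⋯ ≤ i_n` with `i_j < i_{j+1}` whenever `j ∈ S` (the entry `i_j` is `i` applied to
the element `j - 1` of `Fin n`). -/
def IsFundSeq (n : ℕ) (S : Set ℕ) (i : Fin n → ℕ) : Prop :=
  Monotone i ∧ ∀ j k : Fin n, (k : ℕ) = j + 1 → (j : ℕ) + 1 ∈ S → i j < i k

/-- The fundamental quasisymmetric function `F_S` of degree `n`: the coefficient of `x^a` is the
number of admissible index sequences whose monomial is `x^a`. -/
noncomputable def fundamental (n : ℕ) (S : Set ℕ) : Ser :=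
  fun a => (Nat.card {i : Fin n → ℕ // IsFundSeq n S i ∧ content i = a} : Polynomial ℤ)

open Classical in
/-- The monomial symmetric function `m_λ`: the sum of all monomials whose multiset of nonzero
exponents is the multiset of parts of `λ`. -/
noncomputable def monomialSym {n : ℕ} (μ : n.Partition) : Ser :=
  fun a => if a.support.val.map a = μ.parts then 1 else 0

/-- The coefficient `(n!/λ!) ∏_{s ∈ λ} (α + arm(s))`. A row with `r` cells has cells in columns
`c = 0, …, r - 1`, with arms `r - 1 - c`. -/
noncomputable def jackCoeff {n : ℕ} (μ : n.Partition) : Polynomial ℤ :=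
  ((n.factorial / (μ.parts.map Nat.factorial).prod : ℕ) : Polynomial ℤ) *
    (μ.parts.map (fun r => ∏ c ∈ range r,
      ((Polynomial.X : Polynomial ℤ) + ((r - 1 - c : ℕ) : Polynomial ℤ)))).prod

/-- The normalised one-row Jack polynomial. -/
noncomputable def jackOneRow (n : ℕ) : Ser :=
  ∑ μ : n.Partition, jackCoeff μ • monomialSym μ

/-- The set-partition expansion. -/
noncomputable def rhs (n : ℕ) : Ser :=
  ∑ π : Equiv.Perm (Fin n), ∑ β : Finpartition (univ : Finset (Fin n)),
    descPochhammer ℤ β.parts.card •
      fundamental n (descents n (insertionTableau (word (refill β π))))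

end Q162Jack
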