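import Pool.Agent.Q162.Jack.Seq

/-!
# The set-partition expansion of the one-row Jack polynomial
-/

namespace Q162Jack

open Finset

variable {n : ℕ}

/-- The sequences counted by a coefficient of a fundamental quasisymmetric function. -/
abbrev FundOf (n : ℕ) (S : Set ℕ) (a : ℕ →₀ ℕ) : Type :=
  {i : Fin n → ℕ // IsFundSeq n S i ∧ content i = a}

instance (n : ℕ) (S : Set ℕ) (a : ℕ →₀ ℕ) : Finite (FundOf n S a) := by
  have : Subsingleton (FundOf n S a) :=
    ⟨fun i i' => Subtype.ext (seq_unique _ _ i.2.1.1 i'.2.1.1 (i.2.2.trans i'.2.2.symm))⟩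
  infer_instance

instance (s : Fin n → ℕ) (m : ℕ) : Finite (XX s m) := by
  unfold XX
  infer_instance

/-- The descent set of the insertion tableau of `f_β(π)`. -/
noncomputable abbrev D (β : Finpartition (univ : Finset (Fin n))) (π : Equiv.Perm (Fin n)) :
    Set ℕ := descents n (insertionTableau (word (refill β π)))

/-- All the data counted by a coefficient of the right hand side at `α = m`. -/
abbrev Data (n m : ℕ) (a : ℕ →₀ ℕ) : Type :=
  Σ z : Equiv.Perm (Fin n) × Finpartition (univ : Finset (Fin n)),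
    ({c : Fin n → Fin m // Compat z.2 c} × FundOf n (D z.2 z.1) a)

/-- The comparison map. -/
noncomputable def compare (n m : ℕ) (a : ℕ →₀ ℕ) (y : Data n m a) :
    Σ i : SeqOf n a, XX i.1 m :=
  ⟨⟨y.2.2.1, y.2.2.2.1.1, y.2.2.2.2⟩,
    ⟨⟨y.1.1, y.2.1.1, refillPerm y.1.2 y.1.1⟩, refill_color _ _ y.2.1.2 _,
      refill_incOn _ _ y.2.1.2 _, (strict_iff _ y.2.2.2.1.1 _).mp y.2.2.2.1.2⟩⟩

theorem compare_bijective (n m : ℕ) (a : ℕ →₀ ℕ) : Function.Bijective (compare n m a) := by
  constructor
  · rintro ⟨⟨π, β⟩, ⟨⟨c, hc⟩, ⟨i, hi⟩⟩⟩ ⟨⟨π', β'⟩, ⟨⟨c', hc'⟩, ⟨i', hi'⟩⟩⟩ h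
    have e1 : i = i' := congrArg (fun z => z.1.1) h
    subst e1
    have h2 := eq_of_heq (Sigma.mk.inj h).2
    have h3 := congrArg Subtype.val h2
    have e2 : π = π' := congrArg (fun z => z.1) h3
    have e3 : c = c' := congrArg (fun z => z.2.1) h3
    subst e2
    subst e3
    have e4 : β = β' := compat_unique β β' c hc hc'
    subst e4
    rfl
  · rintro ⟨⟨i, hi, hc⟩, ⟨⟨π, c, w⟩, h1, h2, h3⟩⟩
    obtain ⟨β, hβ⟩ := exists_compat c
    have hw := refill_unique β c hβ π w h1 h2
    have h4 : IsFundSeq n (D β π) i := by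
      refine ⟨hi, ?_⟩
      have h5 := (strict_iff i hi (refillPerm β π)).mpr (by rw [hw]; exact h3)
      exact h5
    refine ⟨⟨⟨π, β⟩, ⟨⟨c, hβ⟩, ⟨i, h4, hc⟩⟩⟩, ?_⟩
    unfold compare
    simp only [hw]

theorem count_rhs (n m : ℕ) (a : ℕ →₀ ℕ) :
    ∑ π : Equiv.Perm (Fin n), ∑ β : Finpartition (univ : Finset (Fin n)),
      m.descFactorial β.parts.card * Nat.card (FundOf n (D β π) a) = target m n a := by
  rw [← card_seq_XX, ← Nat.card_eq_of_bijective _ (compare_bijective n m a), Nat.card_sigma,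
    Fintype.sum_prod_type]
  refine Finset.sum_congr rfl fun π _ => Finset.sum_congr rfl fun β _ => ?_
  rw [Nat.card_prod, card_compat]

theorem eval_rhs (n m : ℕ) (a : ℕ →₀ ℕ) :
    (MvPowerSeries.coeff a (rhs n)).eval (m : ℤ) = (target m n a : ℤ) := by
  rw [← count_rhs]
  unfold rhs
  simp only [map_sum, Polynomial.eval_finsetSum]
  push_cast
  refine Finset.sum_congr rfl fun π _ => Finset.sum_congr rfl fun β _ => ?_
  rw [MvPowerSeries.coeff_smul, Polynomial.eval_mul, descPochhammer_eval_eq_descFactorial]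
  congr 1
  have : MvPowerSeries.coeff a (fundamental n (D β π)) =
    (Nat.card (FundOf n (D β π) a) : Polynomial ℤ) := rfl
  rw [this, Polynomial.eval_natCast]

/-! ### The Jack side -/

theorem eval_row (m r : ℕ) :
    (∏ c ∈ range r, ((Polynomial.X : Polynomial ℤ) + ((r - 1 - c : ℕ) : Polynomial ℤ))).eval
      (m : ℤ) = ((r.factorial * (m + (r - 1)).choose r : ℕ) : ℤ) := by
  rw [Polynomial.eval_prod]
  have h1 : ∏ c ∈ range r, ((Polynomial.X : Polynomial ℤ) + ((r - 1 - c : ℕ) :
      Polynomial ℤ)).eval (m : ℤ) = ((∏ c ∈ range r, (m + (r - 1 - c)) : ℕ) : ℤ) := by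
    push_cast
    refine Finset.prod_congr rfl fun c _ => ?_
    rw [Polynomial.eval_add, Polynomial.eval_X, Polynomial.eval_natCast]
  rw [h1, Finset.prod_range_reflect (fun c => m + c) r, ← Nat.ascFactorial_eq_prod_range,
    Nat.ascFactorial_eq_factorial_mul_choose']
  rcases r with _ | r
  · simp
  · rw [show m + (r + 1) - 1 = m + (r + 1 - 1) by omega]

theorem eval_jackCoeff (m : ℕ) (μ : n.Partition) :
    (jackCoeff μ).eval (m : ℤ) =
      ((n.factorial * (μ.parts.map (fun r => (m + (r - 1)).choose r)).prod : ℕ) : ℤ) := by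
  unfold jackCoeff
  rw [Polynomial.eval_mul, Polynomial.eval_natCast, Polynomial.eval_multiset_prod,
    Multiset.map_map]
  have h1 : (μ.parts.map ((Polynomial.eval (m : ℤ)) ∘ fun r => ∏ c ∈ range r,
      ((Polynomial.X : Polynomial ℤ) + ((r - 1 - c : ℕ) : Polynomial ℤ)))) =
      μ.parts.map (fun r => ((r.factorial * (m + (r - 1)).choose r : ℕ) : ℤ)) := by
    apply Multiset.map_congr rfl
    intro r _
    exact eval_row m r
  rw [h1]
  have h2 : (μ.parts.map (fun r => ((r.factorial * (m + (r - 1)).choose r : ℕ) : ℤ))).prod =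
      (((μ.parts.map Nat.factorial).prod *
        (μ.parts.map (fun r => (m + (r - 1)).choose r)).prod : ℕ) : ℤ) := by
    rw [← Multiset.prod_map_mul, Nat.cast_multiset_prod, Multiset.map_map]
    rfl
  rw [h2]
  have h3 : (μ.parts.map Nat.factorial).prod ∣ n.factorial := by
    have h4 := Nat.prod_factorial_dvd_factorial_sum (univ : Finset (Fin μ.parts.toList.length))
      (fun j => μ.parts.toList.get j)
    have h5 : ∑ j, μ.parts.toList.get j = n := by
      rw [← List.sum_ofFn, List.ofFn_get, Multiset.sum_toList, μ.parts_sum]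
    have h6 : ∏ j, (μ.parts.toList.get j).factorial = (μ.parts.map Nat.factorial).prod := by
      rw [← List.prod_ofFn]
      have : List.ofFn (fun j => (μ.parts.toList.get j).factorial) =
          μ.parts.toList.map Nat.factorial := by
        conv_rhs => rw [← List.ofFn_get μ.parts.toList, List.map_ofFn]
        rfl
      rw [this, ← Multiset.prod_coe, ← Multiset.map_coe, Multiset.coe_toList]
    rw [h5, h6] at h4
    exact h4
  rw [← Nat.cast_mul, ← mul_assoc, Nat.div_mul_cancel h3]

theorem eval_jack (n m : ℕ) (a : ℕ →₀ ℕ) :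
    (MvPowerSeries.coeff a (jackOneRow n)).eval (m : ℤ) = (target m n a : ℤ) := by
  classical
  unfold jackOneRow
  rw [map_sum, Polynomial.eval_finsetSum]
  have h0 : ∀ μ : n.Partition, (MvPowerSeries.coeff a (jackCoeff μ • monomialSym μ)).eval (m : ℤ) =
      if a.support.val.map a = μ.parts then (jackCoeff μ).eval (m : ℤ) else 0 := by
    intro μ
    rw [MvPowerSeries.coeff_smul, Polynomial.eval_mul]
    have : MvPowerSeries.coeff a (monomialSym μ) =
      if a.support.val.map a = μ.parts then 1 else 0 := rfl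
    rw [this]
    split_ifs <;> simp
  simp only [h0]
  unfold target
  split_ifs with h
  · let μ : n.Partition := ⟨a.support.val.map a, by
      intro i hi
      rw [Multiset.mem_map] at hi
      obtain ⟨v, hv, e⟩ := hi
      rw [← e]
      exact Nat.pos_of_ne_zero (Finsupp.mem_support_iff.mp hv), h⟩
    rw [Finset.sum_eq_single μ]
    · rw [if_pos rfl, eval_jackCoeff]
      congr 2
      simp only [μ, Multiset.map_map]
      rfl
    · intro ν _ hν
      rw [if_neg]
      intro e
      exact hν (Nat.Partition.ext e.symm)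
    · intro h'
      exact absurd (mem_univ _) h'
  · apply Finset.sum_eq_zero
    intro ν _
    rw [if_neg]
    intro e
    apply h
    have := ν.parts_sum
    rw [← e] at this
    exact this

theorem main (n : ℕ) : jackOneRow n = rhs n := by
  apply MvPowerSeries.ext
  intro a
  apply Polynomial.eq_of_infinite_eval_eq
  apply Set.Infinite.mono (s := Set.range (fun m : ℕ => (m : ℤ)))
  · rintro x ⟨m, rfl⟩
    change (MvPowerSeries.coeff a (jackOneRow n)).eval (m : ℤ) =
      (MvPowerSeries.coeff a (rhs n)).eval (m : ℤ)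
    rw [eval_jack, eval_rhs]
  · exact Set.infinite_range_of_injective Nat.cast_injective

end Q162Jack
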