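import Mathlib.SetTheory.Cardinal.Finite
import Mathlib.Data.Fintype.Perm
import Mathlib.Data.Fintype.Prod
import Mathlib.Data.Fintype.Pi
import Mathlib.Tactic

/-!
# Words increasing on classes

`IncOn f g` says that `g` is weakly increasing on each class `{p : f p = k}` of `f`.
-/

namespace Q162Jack

open Equiv

variable {n : ℕ}

/-- `g` is weakly increasing on every class of `f`. -/
def IncOn {K L : Type*} [LE L] (f : Fin n → K) (g : Fin n → L) : Prop :=
  ∀ p q, p < q → f p = f q → g p ≤ g q

theorem incOn_le {K L : Type*} [LinearOrder L] (f : Fin n → K) (g : Fin n → L)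
    (τ : Perm (Fin n)) (h1 : ∀ p, f (τ p) = f p) (h2 : IncOn f g)
    (h3 : IncOn f (fun p => g (τ p))) (p : Fin n) : g p ≤ g (τ p) := by
  classical
  by_contra hlt
  push Not at hlt
  let A : Finset (Fin n) := Finset.univ.filter (fun q => f q = f p ∧ g q ≤ g (τ p))
  let B : Finset (Fin n) := Finset.univ.filter (fun q => f q = f p ∧ g (τ q) ≤ g (τ p))
  have hcard : B.card = A.card := by
    apply Finset.card_bij (fun q _ => τ q)
    · intro q hq
      simp only [A, B, Finset.mem_filter, Finset.mem_univ, true_and] at hq ⊢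
      exact ⟨by rw [h1, hq.1], hq.2⟩
    · intro a _ b _ h
      exact τ.injective h
    · intro b hb
      simp only [A, B, Finset.mem_filter, Finset.mem_univ, true_and] at hb ⊢
      refine ⟨τ.symm b, ⟨?_, ?_⟩, by simp⟩
      · rw [← h1 (τ.symm b), Equiv.apply_symm_apply]
        exact hb.1
      · rw [Equiv.apply_symm_apply]
        exact hb.2
  have hsub : A ⊂ B := by
    rw [Finset.ssubset_iff_of_subset]
    · refine ⟨p, ?_, ?_⟩
      · simp [B]
      · simp only [A, Finset.mem_filter, Finset.mem_univ, true_and]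
        exact not_le.mpr hlt
    · intro q hq
      simp only [A, B, Finset.mem_filter, Finset.mem_univ, true_and] at hq ⊢
      refine ⟨hq.1, ?_⟩
      rcases lt_trichotomy q p with h | h | h
      · exact h3 q p h hq.1
      · rw [h]
      · exfalso
        have := h2 p q h hq.1.symm
        exact absurd (lt_of_lt_of_le hlt this) (not_lt.mpr hq.2)
  have := Finset.card_lt_card hsub
  omega

/-- Uniqueness of the rearrangement that is increasing on classes. -/
theorem incOn_unique {K L : Type*} [LinearOrder L] (f : Fin n → K) (g : Fin n → L)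
    (τ : Perm (Fin n)) (h1 : ∀ p, f (τ p) = f p) (h2 : IncOn f g)
    (h3 : IncOn f (fun p => g (τ p))) (p : Fin n) : g (τ p) = g p := by
  apply le_antisymm
  · have h1' : ∀ p, f (τ.symm p) = f p := by
      intro p
      have := h1 (τ.symm p)
      rw [Equiv.apply_symm_apply] at this
      exact this.symm
    have := incOn_le f (fun p => g (τ p)) τ.symm h1' h3 (by simpa using h2) p
    simpa using this
  · exact incOn_le f g τ h1 h2 h3 p

/-- Existence of a rearrangement that is increasing on classes. -/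
theorem exists_incOn {K : Type*} (f : Fin n → K) (g : Fin n → ℕ) :
    ∃ τ : Perm (Fin n), (∀ p, f (τ p) = f p) ∧ IncOn f (fun p => g (τ p)) := by
  classical
  have hne : Nonempty {τ : Perm (Fin n) // ∀ p, f (τ p) = f p} := ⟨⟨1, fun p => rfl⟩⟩
  obtain ⟨⟨τ, h1⟩, hmax⟩ := Finite.exists_max
    (fun τ : {τ : Perm (Fin n) // ∀ p, f (τ p) = f p} => ∑ p : Fin n, (p : ℕ) * g (τ.1 p))
  refine ⟨τ, h1, ?_⟩
  intro p q hpq hf
  by_contra hlt
  push Not at hlt
  have hne' : p ≠ q := ne_of_lt hpq
  let τ' : Perm (Fin n) := τ * Equiv.swap p q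
  have hval : ∀ x, τ' x = τ (Equiv.swap p q x) := fun x => rfl
  have h1' : ∀ x, f (τ' x) = f x := by
    intro x
    rw [hval, h1]
    by_cases hxp : x = p
    · rw [hxp, Equiv.swap_apply_left, hf]
    · by_cases hxq : x = q
      · rw [hxq, Equiv.swap_apply_right, hf]
      · rw [Equiv.swap_apply_of_ne_of_ne hxp hxq]
  have h := hmax ⟨τ', h1'⟩
  simp only at h
  have e : ∀ t : Perm (Fin n), ∑ x : Fin n, (x : ℕ) * g (t x) =
      (∑ x ∈ (Finset.univ.erase p).erase q, (x : ℕ) * g (t x)) + (q : ℕ) * g (t q)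
        + (p : ℕ) * g (t p) := by
    intro t
    rw [← Finset.sum_erase_add _ _ (Finset.mem_univ p), ← Finset.sum_erase_add _ _
      (Finset.mem_erase.mpr ⟨hne'.symm, Finset.mem_univ q⟩)]
  rw [e τ', e τ] at h
  have e2 : ∑ x ∈ (Finset.univ.erase p).erase q, (x : ℕ) * g (τ' x) =
      ∑ x ∈ (Finset.univ.erase p).erase q, (x : ℕ) * g (τ x) := by
    apply Finset.sum_congr rfl
    intro x hx
    rw [Finset.mem_erase, Finset.mem_erase] at hx
    rw [hval, Equiv.swap_apply_of_ne_of_ne hx.2.1 hx.1]
  rw [e2, hval, hval, Equiv.swap_apply_left, Equiv.swap_apply_right] at h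
  have hpq' : (p : ℕ) < q := hpq
  obtain ⟨k, hk⟩ : ∃ k, (q : ℕ) = p + k + 1 := ⟨q - p - 1, by omega⟩
  obtain ⟨l, hl⟩ : ∃ l, g (τ p) = g (τ q) + l + 1 := ⟨g (τ p) - g (τ q) - 1, by omega⟩
  rw [hk, hl] at h
  nlinarith

end Q162Jack
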