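import Mathlib.Data.Finset.Sort
import Pool.Agent.Q162.Jack.Count
import Pool.Agent.Q162.ChromH.Chain

/-!
# The number of words increasing on the classes of `s`
-/

namespace Q162Jack

open Q162ChromH

variable {n m : ℕ}

/-- A strictly decreasing labelling of `0, …, a-1`. -/
def dec (a i : ℕ) : ℕ := a - i

theorem adm_dec_iff (a : ℕ) (c : Fin a → ℕ) :
    Adm (dec a) a c ↔ ∀ i j : Fin a, i < j → c i ≤ c j := by
  unfold Adm dec
  constructor
  · intro h i j hij
    rcases h i j hij with h | h <;> omega
  · intro h i j hij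
    have h1 := h i j hij
    have h2 : (i : ℕ) < j := hij
    have h3 := j.2
    omega

theorem ties_dec (a b : ℕ) (h : b ≤ a) : ties (dec a) b = b - 1 := by
  induction b with
  | zero => simp [ties]
  | succ b ih =>
    unfold ties at ih ⊢
    rw [Finset.sum_range_succ, ih (by omega)]
    unfold stp dec
    split_ifs with h1
    · omega
    · push Not at h1
      rcases Nat.eq_zero_or_pos b with h2 | h2
      · omega
      · have := h1 h2
        omega

theorem card_adm_dec (a m : ℕ) : Nat.card (AdmSet (dec a) a m) = (m + (a - 1)).choose a := by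
  rw [card_admSet, ties_dec a a le_rfl]

/-- The class of `j`. -/
def cls (s : Fin n → ℕ) (j : ℕ) : Finset (Fin n) := Finset.univ.filter (fun x => s x = j)

theorem mem_cls (s : Fin n → ℕ) (j : ℕ) (x : Fin n) : x ∈ cls s j ↔ s x = j := by
  simp [cls]

/-- Restriction of a word to the classes. -/
noncomputable def restr (s : Fin n → ℕ) (m : ℕ) (g : {g : Fin n → Fin m // IncOn s g}) :
    ∀ j : (Finset.univ.image s : Finset ℕ),
      AdmSet (dec (cls s j).card) (cls s j).card m :=
  fun j => ⟨fun i => (g.1 ((cls s j).orderEmbOfFin rfl i) : ℕ), fun i => (g.1 _).2, by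
    rw [adm_dec_iff]
    intro i i' hii
    apply g.2
    · exact ((cls s j).orderEmbOfFin rfl).lt_iff_lt.mpr hii
    · have h1 := (cls s j).orderEmbOfFin_mem rfl i
      have h2 := (cls s j).orderEmbOfFin_mem rfl i'
      rw [mem_cls] at h1 h2
      rw [h1, h2]⟩

theorem restr_bijective (s : Fin n → ℕ) (m : ℕ) : Function.Bijective (restr s m) := by
  constructor
  · intro g g' h
    apply Subtype.ext
    funext x
    have hx : s x ∈ (Finset.univ.image s : Finset ℕ) := Finset.mem_image_of_mem _ (Finset.mem_univ _)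
    have h1 := congrFun h ⟨s x, hx⟩
    have h2 : x ∈ Set.range ((cls s (s x)).orderEmbOfFin rfl) := by
      rw [Finset.range_orderEmbOfFin]
      simp [mem_cls]
    obtain ⟨i, hi⟩ := h2
    have h3 := congrFun (congrArg Subtype.val h1) i
    simp only [restr] at h3
    rw [hi] at h3
    exact Fin.ext h3
  · intro c
    have hx : ∀ x, s x ∈ (Finset.univ.image s : Finset ℕ) :=
      fun x => Finset.mem_image_of_mem _ (Finset.mem_univ _)
    have hmem : ∀ x, x ∈ cls s (s x) := fun x => by simp [mem_cls]
    let g : Fin n → Fin m := fun x =>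
      ⟨(c ⟨s x, hx x⟩).1 (((cls s (s x)).orderIsoOfFin rfl).symm ⟨x, hmem x⟩),
        (c ⟨s x, hx x⟩).2.1 _⟩
    have hg : ∀ (j : (Finset.univ.image s : Finset ℕ)) (i : Fin (cls s j).card),
        (g ((cls s j).orderEmbOfFin rfl i) : ℕ) = (c j).1 i := by
      intro j i
      have h1 : s ((cls s j).orderEmbOfFin rfl i) = j :=
        (mem_cls _ _ _).mp ((cls s j).orderEmbOfFin_mem rfl i)
      have key : ∀ (j' : ℕ) (hj' : j' ∈ (Finset.univ.image s : Finset ℕ)) (x : Fin n)
          (hx : x ∈ cls s j'), j' = j → x = (cls s j).orderEmbOfFin rfl i →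
          (c ⟨j', hj'⟩).1 (((cls s j').orderIsoOfFin rfl).symm ⟨x, hx⟩) = (c j).1 i := by
        intro j' hj' x hx e1 e2
        subst e1
        have e3 : ((cls s (j : ℕ)).orderIsoOfFin rfl).symm ⟨x, hx⟩ = i := by
          rw [OrderIso.symm_apply_eq]
          apply Subtype.ext
          exact e2
        exact congrArg (c j).1 e3
      exact key _ _ _ _ h1 rfl
    have hinc : IncOn s g := by
      intro p q hpq hs
      have h2 : p ∈ Set.range ((cls s (s p)).orderEmbOfFin rfl) := by
        rw [Finset.range_orderEmbOfFin]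
        simp [mem_cls]
      have h3 : q ∈ Set.range ((cls s (s p)).orderEmbOfFin rfl) := by
        rw [Finset.range_orderEmbOfFin]
        simp [mem_cls, hs]
      obtain ⟨i, hi⟩ := h2
      obtain ⟨i', hi'⟩ := h3
      have e1 := hg ⟨s p, hx p⟩ i
      have e2 := hg ⟨s p, hx p⟩ i'
      simp only at e1 e2
      rw [hi] at e1
      rw [hi'] at e2
      rw [Fin.le_def, e1, e2]
      have h4 := (adm_dec_iff _ _).mp (c ⟨s p, hx p⟩).2.2
      apply h4
      rw [← hi, ← hi'] at hpq
      exact ((cls s (s p)).orderEmbOfFin rfl).lt_iff_lt.mp hpq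
    refine ⟨⟨g, hinc⟩, ?_⟩
    funext j
    apply Subtype.ext
    funext i
    exact hg j i

theorem card_incOn (s : Fin n → ℕ) (m : ℕ) :
    Nat.card {g : Fin n → Fin m // IncOn s g} =
      ∏ j ∈ Finset.univ.image s, (m + ((cls s j).card - 1)).choose (cls s j).card := by
  rw [Nat.card_eq_of_bijective _ (restr_bijective s m), Nat.card_pi]
  simp only [card_adm_dec]
  exact Finset.prod_coe_sort (Finset.univ.image s)
    (fun j => (m + ((cls s j).card - 1)).choose (cls s j).card)

end Q162Jack
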