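import Pool.Agent.Q162.Jack.Defs
import Pool.Agent.Q162.Jack.Mono

/-!
# Monotone sequences with given content
-/

namespace Q162Jack

open Finset

variable {n : ℕ}

theorem content_apply (i : Fin n → ℕ) (v : ℕ) : content i v = (cls i v).card := by
  unfold content cls
  rw [Finsupp.finsetSum_apply, Finset.card_filter]
  refine Finset.sum_congr rfl fun j _ => ?_
  rw [Finsupp.single_apply]

theorem support_content (i : Fin n → ℕ) : (content i).support = univ.image i := by
  ext v
  rw [Finsupp.mem_support_iff, content_apply, mem_image]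
  constructor
  · intro h
    obtain ⟨x, hx⟩ := Finset.card_pos.mp (Nat.pos_of_ne_zero h)
    exact ⟨x, mem_univ _, (mem_cls _ _ _).mp hx⟩
  · rintro ⟨x, _, hx⟩
    apply Nat.pos_iff_ne_zero.mp
    exact Finset.card_pos.mpr ⟨x, (mem_cls _ _ _).mpr hx⟩

theorem toMultiset_content (i : Fin n → ℕ) :
    Finsupp.toMultiset (content i) = (List.ofFn i : Multiset ℕ) := by
  unfold content
  rw [Finsupp.toMultiset_sum]
  simp only [Finsupp.toMultiset_single, one_smul]
  rw [← Fin.univ_val_map i]
  change (univ.val.map (fun x => ({i x} : Multiset ℕ))).sum = _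
  rw [show (fun x => ({i x} : Multiset ℕ)) = (fun a => ({a} : Multiset ℕ)) ∘ i from rfl,
    ← Multiset.map_map, Multiset.sum_map_singleton]

theorem sum_content (i : Fin n → ℕ) : (content i).sum (fun _ => id) = n := by
  rw [← Finsupp.card_toMultiset, toMultiset_content, Multiset.coe_card, List.length_ofFn]

theorem seq_unique (i i' : Fin n → ℕ) (h : Monotone i) (h' : Monotone i')
    (e : content i = content i') : i = i' := by
  have h1 : (List.ofFn i : Multiset ℕ) = (List.ofFn i' : Multiset ℕ) := by
    rw [← toMultiset_content, ← toMultiset_content, e]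
  have h2 : (List.ofFn i).Perm (List.ofFn i') := Multiset.coe_eq_coe.mp h1
  exact List.ofFn_injective (h2.eq_of_sortedLE h.sortedLE_ofFn h'.sortedLE_ofFn)

theorem seq_exists (a : ℕ →₀ ℕ) (ha : a.sum (fun _ => id) = n) :
    ∃ i : Fin n → ℕ, Monotone i ∧ content i = a := by
  let l := (Finsupp.toMultiset a).sort (· ≤ ·)
  have hl : l.length = n := by
    rw [Multiset.length_sort, Finsupp.card_toMultiset, ha]
  have hs : l.Pairwise (· ≤ ·) := Multiset.pairwise_sort _ _
  have hs' : Monotone l.get := hs.sortedLE.monotone_get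
  refine ⟨fun j => l.get (Fin.cast hl.symm j), ?_, ?_⟩
  · intro x y hxy
    apply hs'
    exact hxy
  · have hinj : ∀ f g : ℕ →₀ ℕ, Finsupp.toMultiset f = Finsupp.toMultiset g → f = g := by
      intro f g hfg
      rw [← Finsupp.toMultiset_toFinsupp f, ← Finsupp.toMultiset_toFinsupp g, hfg]
    apply hinj
    rw [toMultiset_content]
    have : List.ofFn (fun j => l.get (Fin.cast hl.symm j)) = l := by
      apply List.ext_getElem
      · simp [hl]
      · intro k h1 h2
        simp
    rw [this]
    exact Multiset.sort_eq _ _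

/-- The value of both sides at `α = m`. -/
def target (m n : ℕ) (a : ℕ →₀ ℕ) : ℕ :=
  if a.sum (fun _ => id) = n then
    n.factorial * ∏ v ∈ a.support, (m + (a v - 1)).choose (a v) else 0

/-- The set of monotone sequences with content `a`. -/
abbrev SeqOf (n : ℕ) (a : ℕ →₀ ℕ) : Type := {i : Fin n → ℕ // Monotone i ∧ content i = a}

theorem card_seq_XX (m : ℕ) (a : ℕ →₀ ℕ) :
    Nat.card (Σ i : SeqOf n a, XX i.1 m) = target m n a := by
  unfold target
  split_ifs with h
  · obtain ⟨i, hi, hc⟩ := seq_exists a h
    let z : SeqOf n a := ⟨i, hi, hc⟩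
    have hz : ∀ y : SeqOf n a, y = z := fun y =>
      Subtype.ext (seq_unique _ _ y.2.1 hi (y.2.2.trans hc.symm))
    have : Unique (SeqOf n a) := ⟨⟨z⟩, hz⟩
    have e : Nat.card (Σ i : SeqOf n a, XX i.1 m) = Nat.card (XX i m) := by
      apply Nat.card_congr
      exact Equiv.uniqueSigma (fun i : SeqOf n a => XX i.1 m) |>.trans
        (Equiv.cast (by rw [hz default]))
    rw [e, card_XX i hi m, card_incOn, ← support_content, hc]
    congr 1
    refine Finset.prod_congr rfl fun v _ => ?_
    rw [← content_apply, hc]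
  · have : IsEmpty (SeqOf n a) := ⟨fun i => h (by rw [← i.2.2, sum_content])⟩
    exact Nat.card_of_isEmpty

end Q162Jack
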